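import Mathlib
import Pool.Agent.Q248.DP.Trip
import Pool.Agent.Q248.DP.Cheb

/-!
# Triples `p - d, p - d', p` inside arbitrary sets of primes

Let `P` be ANY set of primes up to `x`, `α = |P| (log x) / x` its relative density, which may be as small as
`7 / log x`.  If the elements of `P` behaved independently of each other and of the local conditions, then there would be
about `𝔖(d', d) α ^ 3 x / (log x) ^ 3 = 𝔖(d', d) |P| ^ 3 / x ^ 2` elements `p` of `P` for which also `p - d'` and `p - d`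
belong to `P`.  It is proved that for many pairs `d' < d ≤ (log x) ^ 2` there are at least `1 - ε` times as many, uniformly for
`ε ≥ 7 / (α log x)`.  For the set of all primes this contains: `R(x; d', d) ≥ 1 - ε` (up to a factor `1 + O(1 / log x)`) for
`≫ ε ^ (1 + δ) (log x) ^ 4` pairs of the question, uniformly for `ε ≥ 7 / (α log x)`.

Proof.  Convexity for the number of elements of `P` in short intervals, the average and the moments of the singular series over
the triples of an interval (starting library `TH891.SG`), and the uniform upper bound of the sieve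
(`W218.TX.pi_upper`).
-/

set_option autoImplicit false

namespace Pool.Agent.Results.MP_1039f5_nt.ArbitrarySetsOfPrimes

open Finset Filter Topology

/-- the singular series of `{0, d', d}` -/
noncomputable def S (d' d : ℕ) : ℝ := ∏' p : Nat.Primes,
  ((1 - ((((({0, d', d} : Finset ℕ).image (fun n => n % (p : ℕ))).card : ℕ) : ℝ) / ((p : ℕ) : ℝ)))
    / (1 - 1 / ((p : ℕ) : ℝ)) ^ 3)

/-- the number of the elements `p` of `P` for which `p - d` and `p - d'` belong to `P` -/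
def count (P : Finset ℕ) (d' d : ℕ) : ℕ := (P.filter (fun p => p - d ∈ P ∧ p - d' ∈ P)).card

open Classical in
/-- the pairs of even integers `2 ≤ d' < d ≤ H` with `𝔖(d', d) > 0` and at least `s 𝔖(d', d)` such elements `p` -/
noncomputable def pairs (P : Finset ℕ) (H : ℕ) (s : ℝ) : Finset (ℕ × ℕ) :=
  (Icc 2 H ×ˢ Icc 2 H).filter (fun u => Even u.1 ∧ Even u.2 ∧ u.1 < u.2 ∧ 0 < S u.1 u.2 ∧
    s * S u.1 u.2 ≤ count P u.1 u.2)

/-- `P` consists of primes up to `x` -/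
def PrimesUpTo (x : ℝ) (P : Finset ℕ) : Prop := ∀ p ∈ P, p.Prime ∧ (p : ℝ) ≤ x

/-- the relative density of `P` among the primes up to `x` -/
noncomputable def α (x : ℝ) (P : Finset ℕ) : ℝ := P.card * Real.log x / x

/-- **Triples inside arbitrary sets of primes.** -/
theorem result (δ : ℝ) (hδ : 0 < δ) :
    -- the region of the question
    (∃ κ : ℝ, 0 < κ ∧ ∀ᶠ x : ℝ in atTop, ∀ P : Finset ℕ, PrimesUpTo x P →
      ∀ ε : ℝ, 7 ≤ ε * (α x P * Real.log x) → ε ≤ 1 →
        κ * (ε * α x P ^ 3) ^ (1 + δ) * Real.log x ^ 4 ≤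
          ((pairs P ⌊Real.log x ^ 2⌋₊ ((1 - ε) * (P.card ^ 3 / x ^ 2))).card : ℝ)) ∧
    -- all regions `d' < d ≤ H` in which the average number of elements of `P` in an interval of length `H` exceeds `2`
    ∃ κ K : ℝ, 0 < κ ∧ 1 ≤ K ∧ ∀ C : ℝ, ∀ᶠ x : ℝ in atTop, ∀ H : ℕ, (H : ℝ) ≤ Real.log x ^ C →
      ∀ P : Finset ℕ, PrimesUpTo x P → ∀ lam : ℝ, lam = P.card * H / x → 2 ≤ lam →
        ∀ θ ε : ℝ, 0 ≤ θ → K ≤ ε * (H : ℝ) ^ (3 / 4 : ℝ) → θ + ε ≤ (1 - 1 / lam) * (1 - 2 / lam) →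
          κ * (ε * α x P ^ 3) ^ (1 + δ) * (H : ℝ) ^ 2 ≤
            ((pairs P H (θ * (P.card ^ 3 / x ^ 2))).card : ℝ) := by
  classical
  obtain ⟨n, hn0, hnδ⟩ : ∃ n : ℕ, 1 ≤ n ∧ 1 / (n : ℝ) ≤ δ := by
    obtain ⟨n, hn⟩ := exists_nat_gt (1 / δ)
    have hpos : 0 < 1 / δ := by positivity
    have hn0 : (0:ℝ) < n := hpos.trans hn
    refine ⟨n, by exact_mod_cast hn0, ?_⟩
    rw [div_le_iff₀ hn0]
    rw [div_lt_iff₀ hδ] at hn
    linarith
  obtain ⟨κ, K, hκ, hK, h⟩ := Pool.Agent.Q248.DP.triples n hn0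
  have hS : ∀ P : Finset ℕ, ∀ H : ℕ, ∀ s : ℝ, pairs P H s = Pool.Agent.Q248.DP.pairs3 P H s := fun P H s => rfl
  have h8 : (0:ℝ) < 8 ^ δ := by positivity
  have general : ∀ C : ℝ, ∀ᶠ x : ℝ in atTop, ∀ H : ℕ, (H : ℝ) ≤ Real.log x ^ C →
      ∀ P : Finset ℕ, PrimesUpTo x P → ∀ lam : ℝ, lam = P.card * H / x → 2 ≤ lam →
        ∀ θ ε : ℝ, 0 ≤ θ → K ≤ ε * (H : ℝ) ^ (3 / 4 : ℝ) → θ + ε ≤ (1 - 1 / lam) * (1 - 2 / lam) →
          (κ * (8 ^ δ)⁻¹) * (ε * α x P ^ 3) ^ (1 + δ) * (H : ℝ) ^ 2 ≤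
            ((pairs P H (θ * (P.card ^ 3 / x ^ 2))).card : ℝ) := by
    intro C
    filter_upwards [h C, Pool.Agent.Q248.DP.alpha_le, eventually_ge_atTop (3:ℝ)] with x h1 h2 h3
    intro H hH P hP lam hlam hlam2 θ ε hθ hε hθε
    have hx0 : 0 < x := by linarith
    have hlx : 0 < Real.log x := Real.log_pos (by linarith)
    have hlam0 : 0 < lam := by linarith
    have hPH : 2 * x ≤ (P.card : ℝ) * H := by
      rw [hlam, le_div_iff₀ hx0] at hlam2; exact hlam2
    have hPH0 : 0 < (P.card : ℝ) * H := by linarith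
    have e1 : x / ((P.card : ℝ) * H) = 1 / lam := by rw [hlam, one_div, inv_div]
    have e2 : 2 * (1 / lam) = 2 / lam := by ring
    have hH0 : (0:ℝ) ≤ H := Nat.cast_nonneg H
    have hε0 : 0 ≤ ε := by
      by_contra hcon
      have h5 : ε * (H:ℝ) ^ (3 / 4 : ℝ) ≤ 0 :=
        mul_nonpos_of_nonpos_of_nonneg (not_le.1 hcon).le (by positivity)
      linarith
    have hε1 : ε ≤ 1 := by
      have i0 : 0 ≤ 1 / lam := by positivity
      have i1 : 1 - 1 / lam ≤ 1 := by linarith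
      have i2 : 0 ≤ 1 - 2 / lam := by
        rw [sub_nonneg, div_le_one hlam0]; exact hlam2
      have i3 : 0 ≤ 2 / lam := by positivity
      have i4 : (1 - 1 / lam) * (1 - 2 / lam) ≤ 1 * (1 - 2 / lam) := mul_le_mul_of_nonneg_right i1 i2
      linarith
    have hα0 : 0 ≤ α x P := by unfold α; positivity
    have hα2 : α x P ≤ 2 := h2 P hP
    have k1 := h1 H hH P hP θ ε hθ hε hPH (by rw [e1, e2]; exact hθε)
    have hb0 : 0 ≤ ε * α x P ^ 3 := by positivity
    have hb8 : ε * α x P ^ 3 ≤ 8 := by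
      have i1 : α x P ^ 3 ≤ 2 ^ 3 := pow_le_pow_left₀ hα0 hα2 3
      have i2 : 0 ≤ α x P ^ 3 := by positivity
      calc ε * α x P ^ 3 ≤ 1 * α x P ^ 3 := mul_le_mul_of_nonneg_right hε1 i2
        _ ≤ 8 := by linarith
    have k2 := Pool.Agent.Q248.DP.exponent hn0 hb0 hb8 (by norm_num) hnδ
    rw [hS]
    refine le_trans ?_ k1
    apply mul_le_mul_of_nonneg_right _ (by positivity)
    rw [mul_assoc]
    exact mul_le_mul_of_nonneg_left k2 hκ.le
  refine ⟨?_, κ * (8 ^ δ)⁻¹, K, by positivity, hK, general⟩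
  refine ⟨(κ * (8 ^ δ)⁻¹) * (1 / 2) ^ (1 + δ) * (36 / 49), by positivity, ?_⟩
  have tL : Tendsto (fun x : ℝ => Real.log x) atTop atTop := Real.tendsto_log_atTop
  filter_upwards [general 2, Pool.Agent.Q248.DP.alpha_le, eventually_ge_atTop (3:ℝ),
    tL.eventually_ge_atTop (max 7 ((2 * K) ^ 2))] with x h1 h2 h3 h4
  intro P hP ε hε hε1
  have hx0 : 0 < x := by linarith
  set L := Real.log x with hL
  have hL7 : 7 ≤ L := (le_max_left _ _).trans h4
  have hLK : (2 * K) ^ 2 ≤ L := (le_max_right _ _).trans h4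
  have hL0 : 0 < L := by linarith
  have hα2 : α x P ≤ 2 := h2 P hP
  have hα0 : 0 ≤ α x P := by unfold α; positivity
  have hαpos : 0 < α x P := by
    rcases hα0.eq_or_lt with h | h
    · rw [← h, zero_mul, mul_zero] at hε; linarith
    · exact h
  have hε0 : 0 < ε := by
    by_contra hcon
    have : ε * (α x P * L) ≤ 0 := mul_nonpos_of_nonpos_of_nonneg (not_lt.1 hcon) (by positivity)
    linarith
  -- the window
  set H := ⌊L ^ 2⌋₊ with hH
  have hH1 : (H:ℝ) ≤ L ^ 2 := Nat.floor_le (by positivity)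
  have hH2 : 6 / 7 * L ^ 2 ≤ H := by
    have : L ^ 2 - 1 < H := Nat.sub_one_lt_floor _
    nlinarith
  have hHpos : (0:ℝ) < H := lt_of_lt_of_le (by positivity) hH2
  have hHr : (H:ℝ) ≤ L ^ (2:ℝ) := by rw [Real.rpow_two]; exact hH1
  -- `lam`
  set lam : ℝ := P.card * H / x with hlam
  have hlamL : 6 / 7 * (α x P * L) ≤ lam := by
    rw [hlam]
    unfold α
    rw [le_div_iff₀ hx0]
    have e1 : 6 / 7 * ((P.card : ℝ) * L / x * L) * x = P.card * (6 / 7 * L ^ 2) := by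
      field_simp
    rw [e1]
    exact mul_le_mul_of_nonneg_left hH2 (Nat.cast_nonneg _)
  have hαL : 7 / ε ≤ α x P * L := by
    rw [div_le_iff₀ hε0]
    linarith
  have hlam6 : 6 / ε ≤ lam := by
    have : 6 / 7 * (7 / ε) ≤ 6 / 7 * (α x P * L) := by linarith
    have e1 : 6 / 7 * (7 / ε) = 6 / ε := by ring
    linarith
  have h6 : 6 ≤ 6 / ε := by
    rw [le_div_iff₀ hε0]; linarith
  have hlam0 : 0 < lam := by linarith
  have hul : 1 / lam ≤ ε / 6 := by
    rw [div_le_div_iff₀ hlam0 (by norm_num)]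
    rw [div_le_iff₀ hε0] at hlam6
    linarith
  -- `ε` is not too small
  have hεL : 7 / (2 * L) ≤ ε := by
    rw [div_le_iff₀ (by positivity)]
    calc 7 ≤ ε * (α x P * L) := hε
      _ ≤ ε * (2 * L) := by
          apply mul_le_mul_of_nonneg_left _ hε0.le
          apply mul_le_mul_of_nonneg_right hα2 hL0.le
  have hKε : K ≤ ε / 2 * (H : ℝ) ^ (3 / 4 : ℝ) := by
    have i1 : (L ^ 2 / 2) ^ (3 / 4 : ℝ) ≤ (H:ℝ) ^ (3 / 4 : ℝ) := by
      apply Real.rpow_le_rpow (by positivity) _ (by norm_num)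
      nlinarith [sq_nonneg L]
    have i2 : L * Real.sqrt L / 2 ≤ (L ^ 2 / 2) ^ (3 / 4 : ℝ) := by
      rw [Real.div_rpow (by positivity) (by norm_num)]
      have e1 : (L ^ 2) ^ (3 / 4 : ℝ) = L * Real.sqrt L := by
        rw [← Real.rpow_natCast, ← Real.rpow_mul hL0.le, Real.sqrt_eq_rpow]
        nth_rewrite 2 [← Real.rpow_one L]
        rw [← Real.rpow_add hL0]
        norm_num
      rw [e1]
      apply div_le_div_of_nonneg_left (by positivity) (by positivity)
      calc (2:ℝ) ^ (3 / 4 : ℝ) ≤ 2 ^ (1:ℝ) := Real.rpow_le_rpow_of_exponent_le (by norm_num) (by norm_num)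
        _ = 2 := Real.rpow_one _
    have i3 : 2 * K ≤ Real.sqrt L := Real.le_sqrt_of_sq_le hLK
    calc K ≤ 7 / (2 * L) / 2 * (L * Real.sqrt L / 2) := by
          have e1 : 7 / (2 * L) / 2 * (L * Real.sqrt L / 2) = 7 / 8 * Real.sqrt L := by
            field_simp
            ring
          rw [e1]
          linarith
      _ ≤ ε / 2 * (H : ℝ) ^ (3 / 4 : ℝ) := by
          apply mul_le_mul _ (i2.trans i1) (by positivity) (by positivity)
          linarith
  have k := h1 H hHr P hP lam rfl (by linarith) (1 - ε) (ε / 2) (by linarith) hKε (by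
    have e1 : 2 / lam = 2 * (1 / lam) := by ring
    rw [e1]
    have : 0 ≤ 1 / lam := by positivity
    nlinarith)
  refine le_trans ?_ k
  have e1 : (ε / 2 * α x P ^ 3) ^ (1 + δ) = (1 / 2) ^ (1 + δ) * (ε * α x P ^ 3) ^ (1 + δ) := by
    have e0 : ε / 2 * α x P ^ 3 = (1 / 2) * (ε * α x P ^ 3) := by ring
    rw [e0]
    exact Real.mul_rpow (by norm_num) (by positivity)
  rw [e1]
  have hHH : 36 / 49 * L ^ 4 ≤ (H:ℝ) ^ 2 := by
    have := pow_le_pow_left₀ (by positivity) hH2 2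
    calc 36 / 49 * L ^ 4 = (6 / 7 * L ^ 2) ^ 2 := by ring
      _ ≤ _ := this
  calc κ * (8 ^ δ)⁻¹ * (1 / 2) ^ (1 + δ) * (36 / 49) * (ε * α x P ^ 3) ^ (1 + δ) * L ^ 4
      = κ * (8 ^ δ)⁻¹ * ((1 / 2) ^ (1 + δ) * (ε * α x P ^ 3) ^ (1 + δ)) * (36 / 49 * L ^ 4) := by ring
    _ ≤ _ := by
        apply mul_le_mul_of_nonneg_left hHH
        positivity

end Pool.Agent.Results.MP_1039f5_nt.ArbitrarySetsOfPrimes
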