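import Pool.Agent.Q25.UReg2

/-!
# Regular points of arbitrary sets of prime triples, uniformly in the two differences

For all `1 ≤ d' < d ≤ X ^ E` (the problem has `d ≤ (log X) ^ 2`) such that `{0, d', d}` does not occupy all the classes of
any prime (i.e. the singular series does not vanish), and EVERY set `A` of integers `m` such that none of `m`, `m + d'`,
`m + d` has a prime factor `≤ X ^ (1 / r)` (for instance the prime triples), almost all elements of `A` in every interval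
`(u, u + Y]`, `X ^ θ ≤ Y ≤ X`, `Y ≤ u`, are regular points of `A`, measured with the expected number of all such integers.
-/

set_option autoImplicit false

namespace Pool.Agent.Results.MP_1039f5_nt.RegularPoints

open Finset
open Pool.Agent.Q25.UReg (N RightOrder ConstantDensity badScales Irregular GoodT VT)

/-- none of `m`, `m + d'`, `m + d` has a prime factor `≤ X ^ (1 / r)` -/
def Good (d' d r X m : ℕ) : Prop :=
  ∀ p : ℕ, p.Prime → (p : ℝ) ≤ (X : ℝ) ^ (1 / (r : ℝ)) → ¬ p ∣ m ∧ ¬ p ∣ m + d' ∧ ¬ p ∣ m + d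

/-- the number of the residue classes modulo `p` which contain an element of `{0, d', d}` -/
def ν (d' d p : ℕ) : ℕ := (({0, d', d} : Finset ℕ).image (fun h => h % p)).card

/-- the product over the primes `p ≤ X ^ (1 / r)` of `1 - ν(p) / p` -/
noncomputable def V (d' d r X : ℕ) : ℝ :=
  ∏ p ∈ (Icc 1 ⌊(X : ℝ) ^ (1 / (r : ℝ))⌋₊).filter Nat.Prime, (1 - (ν d' d p : ℝ) / p)

/-- **Regular points of arbitrary sets of prime triples, uniformly in the two differences.** -/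
theorem result (E θ : ℝ) (hE : 0 < E) (hθ : 0 < θ) :
    ∃ r₀ : ℕ, 2 ≤ r₀ ∧ ∀ r : ℕ, r₀ ≤ r → ∀ ε : ℝ, 0 < ε → ∃ c : ℝ, 0 < c ∧ ∀ δ : ℝ, 0 < δ → ∃ B X₀ : ℕ,
      ∀ X : ℕ, X₀ ≤ X → ∀ d' d : ℕ, 1 ≤ d' → d' < d → (d : ℝ) ≤ (X : ℝ) ^ E →
        (∀ p : ℕ, p.Prime → ν d' d p < p) →
        ∀ u Y : ℕ, (X : ℝ) ^ θ ≤ Y → Y ≤ X → Y ≤ u → ∀ A : Set ℕ, (∀ m ∈ A, Good d' d r X m) →
          (N (Irregular A (V d' d r X) c δ B Y) u (u + Y) : ℝ) ≤ ε * (Y * V d' d r X) := by
  obtain ⟨r₀, hr₀, h⟩ := Pool.Agent.Q25.UReg.tuple_reg 3 (by norm_num) E θ hE hθ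
  refine ⟨r₀, hr₀, fun r hr ε hε => ?_⟩
  obtain ⟨c, hc, h1⟩ := h r hr ε hε
  refine ⟨c, hc, fun δ hδ => ?_⟩
  obtain ⟨B, hB⟩ := h1 δ hδ
  obtain ⟨X₀, hX₀⟩ := Filter.eventually_atTop.1 hB
  refine ⟨B, X₀, fun X hX d' d hd1 hdd hdE hadm u Y hXY hYX hYu A hA => ?_⟩
  have hd'E : (d' : ℝ) ≤ (X : ℝ) ^ E := le_trans (by exact_mod_cast hdd.le) hdE
  refine hX₀ X hX {0, d', d} (card_eq_three.2 ⟨0, d', d, by omega, by omega, by omega, rfl⟩) ?_ hadm u Y hXY hYX hYu A ?_
  · intro h hh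
    rw [mem_insert, mem_insert, mem_singleton] at hh
    rcases hh with rfl | rfl | rfl
    · push_cast
      positivity
    · exact hd'E
    · exact hdE
  · intro m hm p hp hpX h hh
    rw [mem_insert, mem_insert, mem_singleton] at hh
    rcases hh with rfl | rfl | rfl
    · exact (hA m hm p hp hpX).1
    · exact (hA m hm p hp hpX).2.1
    · exact (hA m hm p hp hpX).2.2

end Pool.Agent.Results.MP_1039f5_nt.RegularPoints
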