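import Pool.Agent.Q26.PD.LT

/-!
# The uniform Hardy-Littlewood formula for prime triples, with all shifts translated by sums of few elements of
arbitrary sets
-/

set_option autoImplicit false

namespace Pool.Agent.Results.MP_1039f5_nt.TranslatedShiftPairs

open Finset

/-- The number of the primes `p ≤ x` such that `p - d` and `p - d'` are both primes. -/
def π₃ (x d' d : ℕ) : ℕ := ((Icc 1 x).filter (fun p => p.Prime ∧ (p - d).Prime ∧ (p - d').Prime)).card

/-- The number of the residue classes modulo `q` which contain an element of `{0, d', d}`. -/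
def ν (d' d q : ℕ) : ℕ := ({0, d' % q, d % q} : Finset ℕ).card

/-- The partial product over the primes `q ≤ z` of the singular series of `{0, d', d}`. -/
noncomputable def 𝔖 (d' d z : ℕ) : ℝ :=
  ∏ q ∈ (Icc 1 z).filter Nat.Prime, (1 - (ν d' d q : ℝ) / q) / (1 - 1 / (q : ℝ)) ^ 3

/-- The pair of shifts `(d', d)` is good at `x`, with the relative error `ε` and windows of length at least
`x / log ^ A x`: if `ν d' d q < q` for all primes `q` (this means that the singular series of `{0, d', d}` does not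
vanish), then the singular series converges to some `G > 0`, and the normalised count `R(x; d', d)` of the problem differs
from `1` by at most `ε`; moreover the same holds for the number of the `p` in all windows `(y₁, y₂]`. -/
def Good (ε : ℝ) (A x d' d : ℕ) : Prop :=
  (∀ q : ℕ, q.Prime → ν d' d q < q) →
    ∃ G : ℝ, 0 < G ∧ Filter.Tendsto (𝔖 d' d) Filter.atTop (nhds G) ∧
      |(π₃ x d' d : ℝ) * Real.log x ^ 3 / (G * x) - 1| ≤ ε ∧
      ∀ y₁ y₂ : ℕ, d ≤ y₁ → y₂ ≤ x → (x : ℝ) / Real.log x ^ A ≤ (y₂ : ℝ) - y₁ →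
        |((π₃ y₂ d' d : ℝ) - π₃ y₁ d' d) * Real.log x ^ 3 / (G * ((y₂ : ℝ) - y₁)) - 1| ≤ ε

lemma nu_eq (d' d q : ℕ) (h : d' ≤ d) (hq : 0 < q) : Pool.Agent.Q26.PD.LG.nu ![d - d', d] q = ν d' d q := by
  unfold Pool.Agent.Q26.PD.LG.nu ν
  have e1 : (insert 0 (univ.image fun i : Fin 2 => ![d - d', d] i % q)) = ({0, (d - d') % q, d % q} : Finset ℕ) := by
    ext x
    simp only [mem_insert, mem_image, mem_univ, true_and, mem_singleton, Fin.exists_fin_two, Matrix.cons_val_zero, Matrix.cons_val_one]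
    constructor
    · rintro (h | h | h)
      · exact Or.inl h
      · exact Or.inr (Or.inl h.symm)
      · exact Or.inr (Or.inr h.symm)
    · rintro (h | h | h)
      · exact Or.inl h
      · exact Or.inr (Or.inl h.symm)
      · exact Or.inr (Or.inr h.symm)
  rw [e1]
  have hinj : Set.InjOn (fun r : ℕ => (d + (q - r)) % q) ↑({0, (d - d') % q, d % q} : Finset ℕ) := by
    have hlt : ∀ r ∈ ({0, (d - d') % q, d % q} : Finset ℕ), r < q := by
      intro r hr
      simp only [mem_insert, mem_singleton] at hr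
      rcases hr with h | h | h
      · omega
      · rw [h]; exact Nat.mod_lt _ hq
      · rw [h]; exact Nat.mod_lt _ hq
    intro r hr r' hr' h
    have h1 := hlt r hr
    have h2 := hlt r' hr'
    have h3 : (d + (q - r)) ≡ (d + (q - r')) [MOD q] := h
    have h4 : (q - r) ≡ (q - r') [MOD q] := Nat.ModEq.add_left_cancel' d h3
    have h5 : (q - r) + (r + r') ≡ (q - r') + (r + r') [MOD q] := Nat.ModEq.add_right _ h4
    have h6 : q + r' ≡ q + r [MOD q] := by
      have a1 : (q - r) + (r + r') = q + r' := by omega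
      have a2 : (q - r') + (r + r') = q + r := by omega
      rwa [a1, a2] at h5
    have h7 : r' ≡ r [MOD q] := Nat.ModEq.add_left_cancel' q h6
    have h8 : r' % q = r % q := h7
    rw [Nat.mod_eq_of_lt h1, Nat.mod_eq_of_lt h2] at h8
    exact h8.symm
  rw [← card_image_of_injOn hinj]
  congr 1
  rw [image_insert, image_insert, image_singleton]
  have a1 : (d + (q - 0)) % q = d % q := by simp
  have a2 : (d + (q - (d - d') % q)) % q = d' % q := by
    have h1 : (d - d') % q < q := Nat.mod_lt _ hq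
    have h2 : (d + (q - (d - d') % q)) + (d - d') % q = d + q := by omega
    have h3 : (d + (q - (d - d') % q)) + (d - d') ≡ d' + (d - d') [MOD q] := by
      have h4 : (d + (q - (d - d') % q)) + (d - d') ≡ (d + (q - (d - d') % q)) + (d - d') % q [MOD q] :=
        Nat.ModEq.add_left _ (Nat.mod_modEq _ _).symm
      refine h4.trans ?_
      rw [h2, show d' + (d - d') = d by omega]
      show (d + q) % q = d % q
      simp
    exact Nat.ModEq.add_right_cancel' (d - d') h3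
  have a3 : (d + (q - d % q)) % q = 0 := by
    have h1 : d % q < q := Nat.mod_lt _ hq
    have h2 : (d + (q - d % q)) + d % q = d + q := by omega
    have h3 : (d + (q - d % q)) + d ≡ 0 + d [MOD q] := by
      have h4 : (d + (q - d % q)) + d ≡ (d + (q - d % q)) + d % q [MOD q] :=
        Nat.ModEq.add_left _ (Nat.mod_modEq _ _).symm
      refine h4.trans ?_
      rw [h2, zero_add]
      show (d + q) % q = d % q
      simp
    have h5 := Nat.ModEq.add_right_cancel' d h3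
    have h6 : (d + (q - d % q)) % q = 0 % q := h5
    rw [h6, Nat.zero_mod]
  simp only [a1, a2, a3]
  ext x
  simp only [mem_insert, mem_singleton]
  tauto

/-- windows for the triples indexed by their largest element -/
lemma win_eq (d' d y₁ y₂ : ℕ) (h : d' < d) (h1 : d ≤ y₁) (h2 : y₁ ≤ y₂) :
    (π₃ y₂ d' d : ℝ) - π₃ y₁ d' d = Pool.Agent.Q26.PD.LT.cnt ![d - d', d] (y₁ - d) (y₂ - d) := by
  have hs : π₃ y₂ d' d = π₃ y₁ d' d + ((Ioc y₁ y₂).filter (fun p => p.Prime ∧ (p - d).Prime ∧ (p - d').Prime)).card := by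
    unfold π₃
    rw [← card_union_of_disjoint]
    · congr 1
      ext p
      simp only [mem_filter, mem_union, mem_Icc, mem_Ioc]
      constructor
      · rintro ⟨h3, h4⟩
        rcases le_or_gt p y₁ with h5 | h5
        · exact Or.inl ⟨⟨h3.1, h5⟩, h4⟩
        · exact Or.inr ⟨⟨h5, h3.2⟩, h4⟩
      · rintro (⟨h3, h4⟩ | ⟨h3, h4⟩)
        · exact ⟨⟨h3.1, h3.2.trans h2⟩, h4⟩
        · exact ⟨⟨by omega, h3.2⟩, h4⟩
    · rw [disjoint_left]
      intro p hp hp'
      simp only [mem_filter, mem_Icc, mem_Ioc] at hp hp'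
      omega
  have hc : ((Ioc y₁ y₂).filter (fun p => p.Prime ∧ (p - d).Prime ∧ (p - d').Prime)).card =
      Pool.Agent.Q26.PD.LT.cnt ![d - d', d] (y₁ - d) (y₂ - d) := by
    unfold Pool.Agent.Q26.PD.LT.cnt
    symm
    apply card_bij (fun n _ => n + d)
    · intro n hn
      simp only [mem_filter, mem_Ioc, Fin.forall_fin_two, Matrix.cons_val_zero, Matrix.cons_val_one] at hn ⊢
      refine ⟨⟨by omega, by omega⟩, hn.2.2.2, ?_, ?_⟩
      · rw [Nat.add_sub_cancel]; exact hn.2.1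
      · rw [show n + d - d' = n + (d - d') by omega]; exact hn.2.2.1
    · intro a _ b _ h
      exact Nat.add_right_cancel h
    · intro p hp
      simp only [mem_filter, mem_Ioc, Fin.forall_fin_two, Matrix.cons_val_zero, Matrix.cons_val_one] at hp ⊢
      refine ⟨p - d, ⟨⟨by omega, by omega⟩, hp.2.2.1, ?_, ?_⟩, by omega⟩
      · rw [show p - d + (d - d') = p - d' by omega]; exact hp.2.2.2
      · rw [show p - d + d = p by omega]; exact hp.2.1
  rw [hs, hc]
  push_cast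
  ring

lemma π₃_zero (d' d : ℕ) : π₃ d d' d = 0 := by
  unfold π₃
  rw [card_eq_zero]
  apply filter_eq_empty_iff.2
  intro p hp
  rw [mem_Icc] at hp
  rintro ⟨_, h, _⟩
  rw [Nat.sub_eq_zero_of_le hp.2] at h
  exact Nat.not_prime_zero h

lemma good_of (A : ℕ) (hA : 1 ≤ A) (ε : ℝ) (hε : 0 < ε) : ∃ x₀ : ℕ, ∀ x : ℕ, x₀ ≤ x → ∀ d' d : ℕ, 0 < d' → d' < d →
    (d : ℝ) ≤ 3 * (x / Real.log x) →
    Pool.Agent.Q26.PD.LT.Formula (min ε 1 / 4) A x ![d - d', d] → Good ε A x d' d := by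
  obtain ⟨n1, h1⟩ := Pool.Agent.H373R2.T7.ev_L' (12 / ε + 16)
  refine ⟨n1 + 3, fun x hx d' d hd0 hd hdx hF hadm => ?_⟩
  have hL := h1 x (by omega)
  have hLε : 0 < 12 / ε := by positivity
  obtain ⟨L, hLd⟩ : ∃ L, L = Real.log (x : ℝ) := ⟨_, rfl⟩
  rw [← hLd] at hL hdx ⊢
  have hx0 : (0 : ℝ) < x := by exact_mod_cast (by omega : 0 < x)
  have hL0 : 0 < L := by linarith
  have hadm' : Pool.Agent.Q26.PD.LG.Adm ![d - d', d] := fun q hq => by
    rw [nu_eq d' d q hd.le hq.pos]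
    exact hadm q hq
  obtain ⟨G, hG, hlim, hwin⟩ := hF hadm'
  have hS : Pool.Agent.Q26.PD.LG.sing ![d - d', d] = 𝔖 d' d := by
    funext z
    unfold Pool.Agent.Q26.PD.LG.sing 𝔖
    apply prod_congr rfl
    intro q hq
    rw [nu_eq d' d q hd.le (mem_filter.1 hq).2.pos]
  rw [hS] at hlim
  have hm : min ε 1 / 4 ≤ ε / 4 := by have := min_le_left ε 1; linarith
  have hm1 : min ε 1 / 4 ≤ 1 / 4 := by have := min_le_right ε 1; linarith
  have hm0 : 0 < min ε 1 / 4 := by have : 0 < min ε 1 := lt_min hε one_pos; linarith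
  have key : ∀ y₁ y₂ : ℕ, d ≤ y₁ → y₂ ≤ x → (x : ℝ) / L ^ A ≤ (y₂ : ℝ) - y₁ →
        |((π₃ y₂ d' d : ℝ) - π₃ y₁ d' d) * L ^ 3 / (G * ((y₂ : ℝ) - y₁)) - 1| ≤ min ε 1 / 4 := by
    intro y₁ y₂ a1 a2 a3
    have b0 : 0 < (y₂ : ℝ) - y₁ := lt_of_lt_of_le (by positivity) a3
    have b1 : y₁ < y₂ := by
      have : (y₁ : ℝ) < y₂ := by linarith
      exact_mod_cast this
    rw [win_eq d' d y₁ y₂ hd a1 b1.le]
    have b2 : ((y₂ - d : ℕ) : ℝ) - ((y₁ - d : ℕ) : ℝ) = (y₂ : ℝ) - y₁ := by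
      rw [Nat.cast_sub (by omega), Nat.cast_sub a1]
      ring
    have b3 := hwin (y₁ - d) (y₂ - d) (by omega) (by rw [b2, ← hLd]; exact a3)
    rw [b2, ← hLd] at b3
    have b4 : (Pool.Agent.Q26.PD.LT.cnt ![d - d', d] (y₁ - d) (y₂ - d) : ℝ) * L ^ 3 / (G * ((y₂ : ℝ) - y₁)) - 1 =
        ((Pool.Agent.Q26.PD.LT.cnt ![d - d', d] (y₁ - d) (y₂ - d) : ℝ) - G * (((y₂ : ℝ) - y₁) / L ^ 3)) /
          (G * (((y₂ : ℝ) - y₁) / L ^ 3)) := by
      field_simp
    rw [b4, abs_div, abs_of_pos (show 0 < G * (((y₂ : ℝ) - y₁) / L ^ 3) by positivity), div_le_iff₀ (by positivity)]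
    exact b3
  refine ⟨G, hG, hlim, ?_, fun y₁ y₂ a1 a2 a3 => (key y₁ y₂ a1 a2 a3).trans (by linarith)⟩
  -- the whole range
  have hε12 : 3 / L ≤ ε / 4 := by
    rw [div_le_iff₀ hL0]
    have : ε / 4 * (12 / ε) ≤ ε / 4 * L := mul_le_mul_of_nonneg_left (by linarith) (by positivity)
    have e : ε / 4 * (12 / ε) = 3 := by field_simp; norm_num
    linarith
  have h3L : 3 / L ≤ 1 / 4 := by
    rw [div_le_div_iff₀ hL0 (by norm_num)]
    linarith
  have hdx' : (d : ℝ) ≤ (3 / L) * x := by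
    calc (d : ℝ) ≤ 3 * (x / L) := hdx
      _ = _ := by ring
  have hdle : d ≤ x := by
    have : (d : ℝ) ≤ x := by nlinarith
    exact_mod_cast this
  have hlen : (x : ℝ) / L ^ A ≤ (x : ℝ) - d := by
    have c1 : (x : ℝ) / L ^ A ≤ x / L := by
      apply div_le_div_of_nonneg_left hx0.le hL0
      calc L = L ^ 1 := (pow_one L).symm
        _ ≤ L ^ A := pow_le_pow_right₀ (by linarith) hA
    have c2 : (x : ℝ) / L ≤ x / 16 := div_le_div_of_nonneg_left hx0.le (by norm_num) (by linarith)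
    nlinarith
  have h5 := key d x le_rfl le_rfl hlen
  rw [π₃_zero, Nat.cast_zero, sub_zero] at h5
  obtain ⟨t, ht⟩ : ∃ t, t = (π₃ x d' d : ℝ) * L ^ 3 / (G * ((x : ℝ) - d)) := ⟨_, rfl⟩
  rw [← ht] at h5
  have hxd : 0 < (x : ℝ) - d := lt_of_lt_of_le (by positivity) hlen
  have e5 : (π₃ x d' d : ℝ) * L ^ 3 / (G * x) = t * (1 - d / x) := by
    rw [ht]
    field_simp
  obtain ⟨u, hu⟩ : ∃ u, u = (d : ℝ) / x := ⟨_, rfl⟩
  have hu0 : 0 ≤ u := by rw [hu]; positivity
  have hu1 : u ≤ 3 / L := by rw [hu, div_le_iff₀ hx0]; exact hdx'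
  rw [e5, ← hu]
  rw [abs_le] at h5 ⊢
  constructor <;> nlinarith [h5.1, h5.2]

/-- For all `l ≥ 2`, `R` and `A ≥ 1` there is a constant `C` such that for all `H` and `ε > 0` there is an `x₀` with the
following property. Let `T 0`, `T 1` be arbitrary sets of integers which contain an element of every interval
`[y, l y]`, `y ≥ 1` (the constants do not depend on them), let `x ≥ x₀`, and let `a 0, a 1 ≤ x / log x` be arbitrary
integers. Then there are sets `S i` of at most `C (log log x) ^ 2` elements of `T i` between `log ^ H x` and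
`x / log ^ H x` such that ALL the pairs of integers `0 < d' < d` for which `d - d'` and `d` differ from `a 0 + ∑ S 0` and
`a 1 + ∑ S 1` by at most `log ^ R x` are good, that is, `|R(x; d', d) - 1| ≤ ε` if the singular series does not vanish (and
the same for the primes in all windows). -/
theorem result (l R A : ℕ) (hl : 2 ≤ l) (hA : 1 ≤ A) : ∃ C : ℝ, ∀ (H : ℕ) (ε : ℝ), 0 < ε → ∃ x₀ : ℕ,
    ∀ T : Fin 2 → Set ℕ, (∀ i, ∀ y : ℕ, 1 ≤ y → ∃ t ∈ T i, y ≤ t ∧ t ≤ l * y) →
      ∀ x : ℕ, x₀ ≤ x → ∀ a : Fin 2 → ℕ, (∀ i, (a i : ℝ) ≤ x / Real.log x) →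
      ∃ S : Fin 2 → Finset ℕ,
        (∀ i, ∀ t ∈ S i, t ∈ T i ∧ Real.log x ^ H ≤ t ∧ (t : ℝ) ≤ x / Real.log x ^ H) ∧
        (∀ i, ((S i).card : ℝ) ≤ C * Real.log (Real.log x) ^ 2) ∧
        ∀ d' d : ℕ, 0 < d' → d' < d →
          |(((d - d' : ℕ) : ℝ)) - ((a 0 + ∑ t ∈ S 0, t : ℕ) : ℝ)| ≤ Real.log x ^ R →
          |(d : ℝ) - ((a 1 + ∑ t ∈ S 1, t : ℕ) : ℝ)| ≤ Real.log x ^ R → Good ε A x d' d := by
  obtain ⟨C, hC⟩ := Pool.Agent.Q26.PD.LT.las 2 l 1 A R (by norm_num) hl le_rfl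
  refine ⟨C, fun H ε hε => ?_⟩
  obtain ⟨n1, h1⟩ := good_of A hA ε hε
  obtain ⟨X₀, h0⟩ := hC (H + 4) 1 (min ε 1 / 4) (by have : 0 < min ε 1 := lt_min hε one_pos; linarith)
  obtain ⟨n2, h2⟩ := Pool.Agent.H373R2.T7.ev_L' (|C| + 2)
  obtain ⟨n3, h3⟩ := Pool.Agent.H373R2.T7.ev_log' (R + 1) 1
  refine ⟨n1 + X₀ + n2 + n3 + 3, fun T hT x hx a ha => ?_⟩
  have hL := h2 x (by omega)
  have hL3 := h3 x (by omega)
  rw [one_mul] at hL3
  obtain ⟨L, hLd⟩ : ∃ L, L = Real.log (x : ℝ) := ⟨_, rfl⟩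
  have hx0 : (0 : ℝ) < x := by exact_mod_cast (by omega : 0 < x)
  have hx1 : (1 : ℝ) ≤ x := by exact_mod_cast (by omega : 1 ≤ x)
  rw [← hLd] at hL hL3 ha
  have hC0 := abs_nonneg C
  have hL1 : 1 ≤ L := by linarith
  have hL0 : 0 < L := by linarith
  obtain ⟨S, g1, g2, _, g3⟩ := h0 T hT x (by omega) a (fun i => by
    rw [one_mul]
    have : (a i : ℝ) ≤ x := (ha i).trans (div_le_self hx0.le hL1)
    exact_mod_cast this)
  rw [← hLd] at g1 g2
  refine ⟨S, fun i t ht => ?_, fun i => by rw [← hLd]; exact g2 i, fun d' d hd0 hd e1 e2 => ?_⟩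
  · obtain ⟨b1, b2, b3⟩ := g1 i t ht
    rw [← hLd]
    refine ⟨b1, le_trans (pow_le_pow_right₀ hL1 (by omega)) b2, b3.trans ?_⟩
    exact div_le_div_of_nonneg_left hx0.le (by positivity) (pow_le_pow_right₀ hL1 (by omega))
  · have hF := (g3 ![d - d', d] (fun i => by
      fin_cases i
      · exact e1
      · exact e2)).2
    refine h1 x (by omega) d' d hd0 hd ?_ hF
    -- the size of `d`
    rw [← hLd] at e2 ⊢
    have b1 : ((∑ t ∈ S 1, t : ℕ) : ℝ) ≤ x / L := by
      have c1 : ((∑ t ∈ S 1, t : ℕ) : ℝ) ≤ (S 1).card * (x / L ^ (H + 4)) := by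
        push_cast
        calc ∑ t ∈ S 1, (t : ℝ) ≤ ∑ _t ∈ S 1, x / L ^ (H + 4) := sum_le_sum fun t ht => (g1 1 t ht).2.2
          _ = _ := by rw [sum_const, nsmul_eq_mul]
      have c2 : Real.log L ≤ L := (Real.log_le_sub_one_of_pos hL0).trans (by linarith)
      have c3 : 0 ≤ Real.log L := Real.log_nonneg hL1
      have c4 : Real.log L ^ 2 ≤ L ^ 2 := pow_le_pow_left₀ c3 c2 2
      have c5 : ((S 1).card : ℝ) ≤ |C| * L ^ 2 :=
        ((g2 1).trans (mul_le_mul_of_nonneg_right (le_abs_self C) (by positivity))).trans (mul_le_mul_of_nonneg_left c4 hC0)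
      have c6 : (x : ℝ) / L ^ (H + 4) ≤ x / L ^ 4 :=
        div_le_div_of_nonneg_left hx0.le (by positivity) (pow_le_pow_right₀ hL1 (by omega))
      have c7 : ((S 1).card : ℝ) * (x / L ^ (H + 4)) ≤ (|C| * L ^ 2) * (x / L ^ 4) :=
        mul_le_mul c5 c6 (by positivity) (by positivity)
      have c8 : (|C| * L ^ 2) * (x / L ^ 4) = (|C| / L) * (x / L) := by field_simp
      have c9 : |C| / L ≤ 1 := by rw [div_le_one hL0]; linarith
      calc ((∑ t ∈ S 1, t : ℕ) : ℝ) ≤ (|C| / L) * (x / L) := c1.trans (c7.trans (le_of_eq c8))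
        _ ≤ 1 * (x / L) := mul_le_mul_of_nonneg_right c9 (by positivity)
        _ = _ := one_mul _
    have b2 : L ^ R ≤ x / L := by
      rw [le_div_iff₀ hL0, ← pow_succ]
      refine hL3.trans ?_
      rw [Real.sqrt_le_left hx0.le]
      nlinarith
    have b3 := (abs_le.1 e2).2
    push_cast at b3
    have b4 := ha 1
    push_cast at b1
    have : (d : ℝ) ≤ x / L + x / L + x / L := by linarith
    linarith

end Pool.Agent.Results.MP_1039f5_nt.TranslatedShiftPairs
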